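import Pool.Agent.H43.PC.BBL

/-!
# The complex Abel–Jacobi map over `ℚ` and planar cubic hypersurfaces

A *gate* is one of the polynomials `x_a`, `x_a - 1`, `x_a - x_b`, `x_a + x_b - x_c`, `x_a x_b - x_c`.
A *lattice system* consists of `n` variables and `r` gates `p_g` with different places in the square
lattice `ℤ²` such that each gate is a neighbour of each of its (different) variables and each variable
is in at most three gates. Its *lattice cubic* is the smooth affine cubic hypersurface
`Z : ∑_g t_g p_g(x) = 1` in the affine space with the coordinates `x`, `t` over `ℚ`.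

For an effective Chow motive `A` over `ℚ` with rational coefficients let `Ker_i(A)` be the kernel of
`CH^i(A)^0 ⊗ ℚ ⟶ J^i(A_ℂ) ⊗ ℚ`. This is an additive functor of effective Chow motives. For a scheme `X`
of finite type over `ℚ` the weight complex `W(X)` of Gillet and Soulé is a complex of effective Chow
motives, so there are complexes `Ker_i(W(X))`.

The proof. Every integral affine scheme of dimension `m` of finite type over `ℚ` has a non-empty smooth
open subscheme which is the scheme of the solutions of a lattice system with `n = r + m`
(`Pool.Agent.H43.PC.exists_lat`). The lattice cubic is an affine bundle of rank `r - 1` over the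
complement of this scheme in `𝔸^n`.
-/

set_option autoImplicit false

open CategoryTheory CategoryTheory.Limits AlgebraicGeometry Pool.Agent.Y116.UV
  Pool.Agent.H71.AR Pool.Agent.H43.PC

namespace Pool.Agent.Results.MP_e28333_ag.LatticeCubics

universe v u

/-- **The Abel–Jacobi map over `ℚ` and lattice cubics.** Let `i` and `d` be natural numbers. The
following are equivalent:

* the kernel of `CH^i(X)^0 ⟶ J^i(X_ℂ)` is a torsion group for all smooth proper schemes `X` over `ℚ` of
  dimension at most `d`;
* the complexes `Ker_(i+r-1)(W(Z))` are exact for the lattice cubics `Z` of all lattice systems of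
  `r > 0` gates whose scheme of solutions has dimension at most `d`;
* the same for the lattice systems whose scheme of solutions is integral, smooth and of dimension
  `m = n - r ≤ d`, where `n` is the number of variables. -/
theorem result
    -- the effective Chow motives over `ℚ` and the Abel–Jacobi maps
    {M : Type u} [Category.{v} M] [Preadditive M] [HasZeroObject M] [HasBinaryBiproducts M]
    {T : BBData M} (hT : IsBB T)
    -- the weight complexes and the Tate twist
    {W : Sch ℚ → CochainComplex M ℤ} {L : M ⥤ M} [L.Additive]
    (hW : IsWeightB (WeightData.mk T.h W) L) (hL : IsTwistAJ T W L) (i d : ℕ) :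
    List.TFAE [
      ∀ X : Sch ℚ, SmProper X → topologicalKrullDim X.left ≤ d → KernelTorsion T i X,
      ∀ (n r : ℕ) (γ : Fin r → Gate ℚ (Fin n)), OnLattice {0, 1} γ → 0 < r →
        ringKrullDim (Net γ) ≤ d → KerExact T W (i + r - 1) (aff ℚ (HypG γ)),
      ∀ (n r m : ℕ) (γ : Fin r → Gate ℚ (Fin n)), LatCI γ m → 0 < r → m ≤ d →
        KerExact T W (i + r - 1) (aff ℚ (HypG γ))] :=
  bb_lat hT hW hL i d

end Pool.Agent.Results.MP_e28333_ag.LatticeCubics
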