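import Pool.Agent.H71.AR.BB

/-!
# The complex Abel–Jacobi map over `ℚ` and moduli spaces of line arrangements

A moduli space of line arrangements parametrises the arrangements which consist of the four lines
`X = 0`, `Y = 0`, `Z = 0`, `X + Y + Z = 0` and of `a` lines `X + x_i Y + y_i Z = 0` and `b` lines
`Y + z_j Z = 0` in the projective plane such that exactly the triples of lines in a given set `S` are
not concurrent. `ArrAlg k N` says that `N` is the algebra of functions on such a moduli space over `k`
(it represents the functor of these arrangements) and that the lines are pairwise distinct.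

For a Chow motive `A` over `ℚ` with rational coefficients let `Ker_i(A)` be the kernel of
`CH^i(A)^0 ⊗ ℚ ⟶ J^i(A_ℂ) ⊗ ℚ`. This is an additive functor of Chow motives. For a scheme `X` of finite
type over `ℚ` the weight complex `W(X)` of Gillet and Soulé is a complex of Chow motives, so there are
complexes `Ker_i(W(X))`.

The proof uses a form of the universality theorem of Mnëv, Sturmfels and Lafforgue which preserves the
dimension: every integral affine scheme of finite type over `ℚ` has a non-empty smooth open subscheme
which is isomorphic to a moduli space of line arrangements (`Pool.Agent.H71.AR.exists_nice`).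
-/

set_option autoImplicit false

open CategoryTheory CategoryTheory.Limits AlgebraicGeometry Pool.Agent.Y116.UV
  Pool.Agent.H71.AR

namespace Pool.Agent.Results.MP_e28333_ag.LineArrangements

universe v u

/-- **The Abel–Jacobi map over `ℚ` and line arrangements.** Let `i` and `d` be natural numbers. The
kernel of `CH^i(X)^0 ⟶ J^i(X_ℂ)` is a torsion group for all smooth proper schemes `X` over `ℚ` of
dimension at most `d` if and only if the complexes `Ker_i(W(N))` are exact for all smooth integral moduli
spaces `N` of line arrangements over `ℚ` of dimension at most `d`. -/
theorem result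
    -- the Chow motives over `ℚ` and the Abel–Jacobi maps
    {M : Type u} [Category.{v} M] [Preadditive M] [HasZeroObject M] [HasBinaryBiproducts M]
    {T : BBData M} (hT : IsBB T)
    -- the weight complexes
    {W : Sch ℚ → CochainComplex M ℤ} (hW : IsWeight (WeightData.mk T.h W)) (i d : ℕ) :
    (∀ X : Sch ℚ, SmProper X → topologicalKrullDim X.left ≤ d → KernelTorsion T i X) ↔
      ∀ (N : Type) [CommRing N] [IsDomain N] [Algebra ℚ N] [Algebra.Smooth ℚ N], ArrAlg ℚ N →
        ringKrullDim N ≤ d → ∀ j : ℤ,
          IsZero (wtH (WeightData.mk T.h W) (kernel (T.AJ i)) j (aff ℚ N)) :=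
  bb_dim hT hW i d

end Pool.Agent.Results.MP_e28333_ag.LineArrangements
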